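import Pool.Agent.N728.QU.DefG3

/-!
Project QV (helper728), part FINK: the change of variables `u = m - h`.
-/

set_option autoImplicit false

namespace Pool.Agent.N222.QV

open Finset Pool.Agent.N728.QU Pool.Agent.N728.QL

noncomputable section

theorem tame_natAbs (c : ℤ) (hc : c ≠ 0) : Tame c.natAbs c := by
  refine ⟨hc, fun s hs => ?_⟩
  have : c.natAbs.primeFactors.filter (fun p => s < p) = ∅ := by
    rw [Finset.filter_eq_empty_iff]
    intro p hp h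
    have h1 := Nat.le_of_mem_primeFactors hp
    omega
  rw [this, Finset.sum_empty]
  positivity

theorem disc (a b c h : ℤ) : b ^ 2 - 4 * a * (c - (a * h ^ 2 + b * h)) =
    (2 * a * h + b) ^ 2 - 4 * a * c := by ring

theorem odd_iff (a b h : ℤ) : Odd (a + b) ↔ Odd (a + (2 * a * h + b)) := by
  constructor
  · rintro ⟨k, hk⟩
    exact ⟨k + a * h, by linear_combination hk⟩
  · rintro ⟨k, hk⟩
    exact ⟨k - a * h, by linear_combination hk⟩

theorem dvd_iff {a b h d : ℤ} (h1 : d ∣ a) : d ∣ b ↔ d ∣ 2 * a * h + b := by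
  have h2 : d ∣ 2 * a * h := Dvd.dvd.mul_right (Dvd.dvd.mul_left h1 2) h
  exact (Int.dvd_add_right h2).symm

theorem partialC_eq (a b c h : ℤ) : partialC a b (c - (a * h ^ 2 + b * h)) =
    partialC a (2 * a * h + b) c := by
  funext z
  unfold partialC
  rw [disc]
  have e2 : (Icc 3 z).filter (fun p : ℕ => p.Prime ∧ (p : ℤ) ∣ a ∧ (p : ℤ) ∣ b) =
      (Icc 3 z).filter (fun p : ℕ => p.Prime ∧ (p : ℤ) ∣ a ∧ (p : ℤ) ∣ 2 * a * h + b) := by
    apply Finset.filter_congr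
    intro p _
    constructor
    · rintro ⟨h1, h2, h3⟩
      exact ⟨h1, h2, (dvd_iff h2).1 h3⟩
    · rintro ⟨h1, h2, h3⟩
      exact ⟨h1, h2, (dvd_iff h2).2 h3⟩
  rw [e2]
  congr 2
  by_cases ho : Odd (a + b)
  · rw [if_pos ho, if_pos ((odd_iff a b h).1 ho)]
  · rw [if_neg ho, if_neg (fun h' => ho ((odd_iff a b h).2 h'))]

theorem isC_iff (a b c h : ℤ) (C : ℝ) : IsC a b (c - (a * h ^ 2 + b * h)) C ↔
    IsC a (2 * a * h + b) c C := by
  unfold IsC
  rw [partialC_eq]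

/-- `a + b` and `c` even give `k` even, and conversely -/
theorem even_iff {a b h c : ℤ} (hab : Even (a + b)) : Even (c - (a * h ^ 2 + b * h)) ↔ Even c := by
  have h1 : Even (a * h ^ 2 + b * h) := by
    have e : a * h ^ 2 + b * h = a * (h * (h + 1)) + (a + b) * h - 2 * (a * h) := by ring
    rw [e]
    exact (((Int.even_mul_succ_self h).mul_left a).add (hab.mul_right h)).sub
      (even_two_mul _)
  exact Int.even_sub.trans (by tauto)

theorem adm (a b c h : ℤ) (H : Admissible a b (c - (a * h ^ 2 + b * h))) :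
    Admissible a (2 * a * h + b) c := by
  obtain ⟨h1, h2, h3⟩ := H
  refine ⟨?_, ?_, ?_⟩
  · obtain ⟨g, hg⟩ : ∃ g, g = Int.gcd (Int.gcd a (2 * a * h + b) : ℤ) c := ⟨_, rfl⟩
    rw [← hg]
    have d1 : (g : ℤ) ∣ (Int.gcd a (2 * a * h + b) : ℤ) := by
      rw [hg]; exact Int.gcd_dvd_left _ _
    have d2 : (g : ℤ) ∣ c := by
      rw [hg]; exact Int.gcd_dvd_right _ _
    have d3 : (g : ℤ) ∣ a := d1.trans (Int.gcd_dvd_left _ _)
    have d4 : (g : ℤ) ∣ 2 * a * h + b := d1.trans (Int.gcd_dvd_right _ _)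
    have d5 : (g : ℤ) ∣ b := (dvd_iff d3).2 d4
    have d6 : (g : ℤ) ∣ c - (a * h ^ 2 + b * h) :=
      dvd_sub d2 (dvd_add (Dvd.dvd.mul_right d3 _) (Dvd.dvd.mul_right d5 _))
    have d7 : (g : ℤ) ∣ (Int.gcd a b : ℤ) := Int.dvd_coe_gcd d3 d5
    have d8 : (g : ℤ) ∣ (Int.gcd (Int.gcd a b : ℤ) (c - (a * h ^ 2 + b * h)) : ℤ) :=
      Int.dvd_coe_gcd d7 d6
    rw [h1] at d8
    have d9 : g ∣ 1 := by exact_mod_cast d8
    exact Nat.dvd_one.1 d9
  · rintro ⟨e1, e2⟩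
    apply h2
    have e3 : Even (a + b) := by
      rw [← Int.not_odd_iff_even] at e1 ⊢
      exact fun h' => e1 ((odd_iff a b h).1 h')
    exact ⟨e3, (even_iff e3).2 e2⟩
  · rwa [disc] at h3

theorem adg (a b c h : ℤ) (H : Admissible a b (c - (a * h ^ 2 + b * h))) : Adg a b c := by
  obtain ⟨h1, h2, -⟩ := H
  refine ⟨fun p hp d1 d2 d3 => ?_, fun d1 d2 => ?_⟩
  · have d6 : (p : ℤ) ∣ c - (a * h ^ 2 + b * h) :=
      dvd_sub d3 (dvd_add (Dvd.dvd.mul_right d1 _) (Dvd.dvd.mul_right d2 _))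
    have d8 : (p : ℤ) ∣ (Int.gcd (Int.gcd a b : ℤ) (c - (a * h ^ 2 + b * h)) : ℤ) :=
      Int.dvd_coe_gcd (Int.dvd_coe_gcd d1 d2) d6
    rw [h1] at d8
    have d9 : p ∣ 1 := by exact_mod_cast d8
    exact hp.one_lt.ne' (Nat.dvd_one.1 d9)
  · have e1 : Even (a + b) := even_iff_two_dvd.2 d1
    exact h2 ⟨e1, (even_iff e1).2 (even_iff_two_dvd.2 d2)⟩

/-- the values at congruent arguments -/
theorem quad_modEq {p a b e m m' : ℤ} (h : m ≡ m' [ZMOD p]) :
    (p ∣ a * m ^ 2 + b * m + e) ↔ p ∣ a * m' ^ 2 + b * m' + e := by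
  have h1 : a * m ^ 2 + b * m + e ≡ a * m' ^ 2 + b * m' + e [ZMOD p] :=
    (((h.pow 2).mul_left a).add (h.mul_left b)).add_right e
  exact h1.dvd_iff

theorem card_roots (a b c : ℤ) (h p : ℕ) (hp : 0 < p) :
    ((range p).filter (fun m : ℕ => (p : ℤ) ∣ Vg a b 1 c h m)).card = om a (2 * a * h + b) c p := by
  unfold om
  have hV : ∀ m : ℕ, (p : ℤ) ∣ Vg a b 1 c h m ↔
      (p : ℤ) ∣ a * (m : ℤ) ^ 2 + b * m + (c - (a * (h : ℤ) ^ 2 + b * h)) := by
    intro m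
    unfold Vg
    rw [show (1 : ℤ) * ((a * (m : ℤ) ^ 2 + b * m) - (a * (h : ℤ) ^ 2 + b * h)) + c =
      a * (m : ℤ) ^ 2 + b * m + (c - (a * (h : ℤ) ^ 2 + b * h)) by ring]
  have hS : ∀ t : ℤ, (p : ℤ) ∣ a * t ^ 2 + (2 * a * h + b) * t + c ↔
      (p : ℤ) ∣ a * (t + h) ^ 2 + b * (t + h) + (c - (a * (h : ℤ) ^ 2 + b * h)) := by
    intro t
    rw [show a * (t + h) ^ 2 + b * (t + h) + (c - (a * (h : ℤ) ^ 2 + b * h)) =
      a * t ^ 2 + (2 * a * h + b) * t + c by ring]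
  symm
  refine Finset.card_nbij' (fun t => (t + h) % p) (fun m => (m + (p - 1) * h) % p) ?_ ?_ ?_ ?_
  · intro t ht
    rw [Finset.mem_coe, mem_filter, mem_range] at ht ⊢
    refine ⟨Nat.mod_lt _ hp, ?_⟩
    rw [hV]
    have h1 := (hS t).1 ht.2
    refine (quad_modEq ?_).1 h1
    push_cast
    exact (Int.mod_modEq _ _).symm
  · intro m hm
    rw [Finset.mem_coe, mem_filter, mem_range] at hm ⊢
    refine ⟨Nat.mod_lt _ hp, ?_⟩
    rw [hS]
    have h1 := (hV m).1 hm.2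
    refine (quad_modEq ?_).1 h1
    have e : (((m + (p - 1) * h) % p : ℕ) : ℤ) + h ≡ (m + (p - 1) * h : ℤ) + h [ZMOD p] := by
      have h3 : (((m + (p - 1) * h) % p : ℕ) : ℤ) = ((m : ℤ) + ((p : ℤ) - 1) * h) % p := by
        push_cast [Nat.cast_sub (show 1 ≤ p from hp)]
        rfl
      rw [h3]
      exact (Int.mod_modEq _ _).add_right _
    refine Int.ModEq.trans ?_ e.symm
    rw [show (m + (p - 1) * h : ℤ) + h = m + p * h by ring]
    exact (Int.modEq_iff_dvd.2 ⟨(h : ℤ), by ring⟩)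
  · intro t ht
    rw [Finset.mem_coe, mem_filter, mem_range] at ht
    show ((t + h) % p + (p - 1) * h) % p = t
    rw [Nat.add_mod, Nat.mod_mod, ← Nat.add_mod]
    have e : t + h + (p - 1) * h = t + p * h := by
      obtain ⟨r, rfl⟩ : ∃ r, p = r + 1 := ⟨p - 1, by omega⟩
      rw [Nat.add_sub_cancel]
      ring
    rw [e, Nat.add_mul_mod_self_left, Nat.mod_eq_of_lt ht.1]
  · intro m hm
    rw [Finset.mem_coe, mem_filter, mem_range] at hm
    show ((m + (p - 1) * h) % p + h) % p = m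
    rw [Nat.add_mod, Nat.mod_mod, ← Nat.add_mod]
    have e : m + (p - 1) * h + h = m + p * h := by
      obtain ⟨r, rfl⟩ : ∃ r, p = r + 1 := ⟨p - 1, by omega⟩
      rw [Nat.add_sub_cancel]
      ring
    rw [e, Nat.add_mul_mod_self_left, Nat.mod_eq_of_lt hm.1]

theorem Sqg_eq (a b c : ℤ) (h z : ℕ) : Sqg a b 1 c h z = Sg a (2 * a * h + b) c z := by
  unfold Sqg Sg
  refine Finset.prod_congr rfl fun p hp => ?_
  rw [mem_filter] at hp
  rw [card_roots a b c h p hp.2.pos]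

end

end Pool.Agent.N222.QV
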