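import Pool.Agent.N728.QU.DefG3
import Pool.Agent.N353.QV.FIN
import Pool.Agent.N222.QV.FINKa

/-!
Project QV (helper728), part FINK: fixed `c`, with the infinite product, from `FinalGU` and `CSTN`.
-/

set_option autoImplicit false

namespace Pool.Agent.N222.QV

open Finset Pool.Agent.N728.QU Pool.Agent.N728.QL
open Pool.Agent.N765.QU (card_diam sum_inv)
open Pool.Agent.N353.QV (Vg_sep)
open Pool.Agent.N199.QL (ev_pow ev_log ev_ge)

noncomputable section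

/-- the sum of `1 / log` -/
theorem sum_le {a b c : ℤ} (ha : 1 ≤ a) {h H M : ℕ} {l : ℝ} (hH : 1 ≤ H) (hl : l = Real.log H)
    (hl0 : 0 < l) :
    0 ≤ ∑ m ∈ (Icc 1 M).filter (fun m : ℕ => 2 ≤ Vg a b 1 c h m),
      1 / Real.log ((Vg a b 1 c h m : ℤ) : ℝ) ∧
    ∑ m ∈ (Icc 1 M).filter (fun m : ℕ => 2 ≤ Vg a b 1 c h m),
      1 / Real.log ((Vg a b 1 c h m : ℤ) : ℝ) ≤ M / l + 2 * (√(H : ℝ) + |(b : ℝ)| + 1) := by
  have hH0 : (0 : ℝ) < H := by exact_mod_cast hH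
  obtain ⟨A, hA⟩ : ∃ A : Finset ℕ, A = (Icc 1 M).filter fun m => 2 ≤ Vg a b 1 c h m := ⟨_, rfl⟩
  have hAm : ∀ m ∈ A, 2 ≤ Vg a b 1 c h m := by
    intro m hm
    rw [hA] at hm
    exact (mem_filter.1 hm).2
  rw [← hA]
  constructor
  · refine Finset.sum_nonneg fun m hm => ?_
    have h2 : (2 : ℝ) ≤ ((Vg a b 1 c h m : ℤ) : ℝ) := by exact_mod_cast hAm m hm
    have := Real.log_nonneg (by linarith : (1 : ℝ) ≤ ((Vg a b 1 c h m : ℤ) : ℝ))
    positivity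
  · have hY : ∀ m, 2 ≤ Vg a b 1 c h m → (H : ℝ) < ((Vg a b 1 c h m : ℤ) : ℝ) →
        l ≤ Real.log ((Vg a b 1 c h m : ℤ) : ℝ) := by
      intro m _ h2
      rw [hl]
      exact Real.log_le_log hH0 h2.le
    have hMs : (A.card : ℝ) ≤ M := by
      have h1 : A.card ≤ (Icc 1 M).card := by
        rw [hA]
        exact Finset.card_filter_le _ _
      rw [Nat.card_Icc] at h1
      have h2 : A.card ≤ M := by omega
      exact_mod_cast h2
    have hs2 : ((A.filter fun m => ((Vg a b 1 c h m : ℤ) : ℝ) ≤ (H : ℝ)).card : ℝ) ≤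
        √(H : ℝ) + |(b : ℝ)| + 1 := by
      refine card_diam _ (by positivity) fun m hm m' hm' => ?_
      rw [mem_filter] at hm hm'
      exact Vg_sep ha (Or.inl rfl) h m m' (hAm m hm.1) hm.2 (hAm m' hm'.1) hm'.2
    have hsum := sum_inv (v := fun m => Vg a b 1 c h m) A hl0 hAm hs2 hY
    refine hsum.trans ?_
    have : (A.card : ℝ) / l ≤ M / l := div_le_div_of_nonneg_right hMs hl0.le
    linarith

theorem natAbs_cast (b : ℤ) : ((b.natAbs : ℕ) : ℝ) = |(b : ℝ)| := by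
  rw [Nat.cast_natAbs, Int.cast_abs]

/-- FINK -/
theorem t_FINK (a b c : ℤ) (ha : 1 ≤ a) (hc : c ≠ 0) (hF : ∀ s0, FinalGU s0 a b)
    (hC : Pool.Agent.N728.QN.S_CSTN a c) (_hAVS : S_AVSg a b) : FinalK a b c := by
  classical
  intro ε hε
  have har : (1 : ℝ) ≤ (a : ℝ) := by exact_mod_cast ha
  obtain ⟨K0, κ, hK0, hκ, hC1⟩ := hC (ε / (4 * (2 * (a : ℝ) + 1))) (by positivity)
  refine ⟨κ, hκ, fun δ K hδ => ?_⟩
  have hKr : (0 : ℝ) ≤ K := Nat.cast_nonneg K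
  obtain ⟨z0, hz0⟩ := hC1 (δ / (2 * ((K : ℝ) + 1))) (by positivity)
  obtain ⟨κ1, hκ1, hF1⟩ := hF c.natAbs (ε / 4) (by positivity)
  obtain ⟨Z0, hZ0⟩ := hF1 (δ / 2) (K + c.natAbs) (by positivity)
  obtain ⟨z, hz⟩ : ∃ z, z = max z0 Z0 := ⟨_, rfl⟩
  obtain ⟨B0, hB0⟩ := hz0 z (by rw [hz]; exact le_max_left _ _)
  obtain ⟨H1, hH1⟩ := hZ0 1
  obtain ⟨a', ha'⟩ : ∃ a' : ℕ, (a' : ℤ) = a := ⟨a.toNat, Int.toNat_of_nonneg (by omega)⟩
  have ha'r : (a' : ℝ) = (a : ℝ) := by exact_mod_cast congrArg (Int.cast : ℤ → ℝ) ha'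
  have hev := (Filter.eventually_ge_atTop 2).and ((Filter.eventually_ge_atTop H1).and
    ((Filter.eventually_ge_atTop B0).and ((Filter.eventually_ge_atTop b.natAbs).and
    ((ev_log z).and ((ev_ge (4 * |(b : ℝ)| / ε)).and ((ev_log 1).and
    ((ev_pow 36 2).and (ev_ge (|(b : ℝ)| ^ 2)))))))))
  obtain ⟨H0, hH0⟩ := Filter.eventually_atTop.1 hev
  refine ⟨H0, fun H hH => ?_⟩
  obtain ⟨g1, g2, g3, g4, g5, g6, g7, g8, g9⟩ := hH0 H hH
  obtain ⟨l, hl⟩ : ∃ l, l = Real.log (H : ℝ) := ⟨_, rfl⟩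
  have hHr2 : (2 : ℝ) ≤ H := by exact_mod_cast g1
  have hHp : (0 : ℝ) < H := by linarith
  have hl1 : 1 ≤ l := by rw [hl]; exact g7
  have hl0 : 0 < l := by linarith
  have hb0 : 0 ≤ |(b : ℝ)| := abs_nonneg _
  have hn0 : 2 * (√(H : ℝ) + |(b : ℝ)| + 1) ≤ H / l := by
    have e1 : 6 * l ≤ √(H : ℝ) := by
      refine Real.le_sqrt_of_sq_le ?_
      rw [← hl] at g8
      have e0 : (6 * l) ^ 2 = 36 * l ^ 2 := by ring
      rw [e0]
      exact g8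
    have e2 : 1 ≤ √(H : ℝ) := Real.one_le_sqrt.2 (by linarith)
    have e2' : |(b : ℝ)| ≤ √(H : ℝ) := Real.le_sqrt_of_sq_le g9
    have e3 : √(H : ℝ) * √(H : ℝ) = H := Real.mul_self_sqrt hHp.le
    rw [le_div_iff₀ hl0]
    calc 2 * (√(H : ℝ) + |(b : ℝ)| + 1) * l ≤ 2 * (√(H : ℝ) + √(H : ℝ) + √(H : ℝ)) * l := by gcongr
      _ = (6 * l) * √(H : ℝ) := by ring
      _ ≤ √(H : ℝ) * √(H : ℝ) := by gcongr
      _ = H := e3
  obtain ⟨B, hB⟩ : ∃ B : ℕ, B = 2 * a' * H + b.natAbs := ⟨_, rfl⟩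
  have ha'1 : 1 ≤ a' := by omega
  have hHB : H ≤ B := by
    rw [hB]
    have e0 : 1 * H ≤ 2 * a' * H := Nat.mul_le_mul_right _ (by omega)
    omega
  have hBr : (B : ℝ) ≤ (2 * (a : ℝ) + 1) * H := by
    have h1 : (b.natAbs : ℝ) ≤ H := by exact_mod_cast g4
    rw [hB]
    push_cast
    rw [ha'r]
    linarith
  -- the exceptional sets
  obtain ⟨S2, hS2c, hS2⟩ : ∃ S : Finset ℕ, (S.card : ℝ) ≤ ε / (4 * (2 * (a : ℝ) + 1)) * B ∧
      ∀ n : ℕ, n ∈ S ↔ ((1 ≤ n ∧ n ≤ B) ∧ Admissible a n c ∧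
        ¬ ∃ K' : ℝ, IsC a n c K' ∧ κ ≤ K' ∧ K' ≤ K0 ∧
          |2 * K' - Sg a n c z| ≤ δ / (2 * ((K : ℝ) + 1))) :=
    ⟨_, hB0 B (g3.trans hHB), fun n => by rw [mem_filter, mem_Icc]⟩
  by_cases hex : ∃ h : ℕ, Admissible a b (c - (a * (h : ℤ) ^ 2 + b * h))
  swap
  · rw [Finset.filter_eq_empty_iff.2 (fun h _ hh => hex ⟨h, hh.1⟩), Finset.card_empty,
      Nat.cast_zero]
    positivity
  obtain ⟨h', hh'⟩ := hex
  have hAd : Adg a b c := adg a b c h' hh'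
  have hc' : c.natAbs ≤ (K + c.natAbs) * H ^ 2 := by
    have h1 : 1 ≤ H ^ 2 := Nat.one_le_pow _ _ (by omega)
    calc c.natAbs = c.natAbs * 1 := (mul_one _).symm
      _ ≤ (K + c.natAbs) * H ^ 2 := Nat.mul_le_mul (Nat.le_add_left _ _) h1
  obtain ⟨S1, hS1c, hS1⟩ : ∃ S : Finset ℕ, (S.card : ℝ) ≤ ε / 4 * H ∧
      ∀ h : ℕ, h ∈ S ↔ ((1 ≤ h ∧ h ≤ H) ∧ ¬ (κ1 ≤ Sqg a b 1 c h z ∧
        ∀ M : ℕ, M ≤ (K + c.natAbs) * H → |(cntg a b 1 c h M : ℝ) - Sqg a b 1 c h z *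
          ∑ m ∈ (Icc 1 M).filter (fun m : ℕ => 2 ≤ Vg a b 1 c h m),
            1 / Real.log ((Vg a b 1 c h m : ℤ) : ℝ)| ≤ δ / 2 * (H / Real.log H))) :=
    ⟨_, hH1 H g2 z c 1 (tame_natAbs c hc) hAd (Or.inl rfl) hc'
      (by rw [hz]; exact le_max_right _ _) (by rw [pow_one]; exact g5),
      fun h => by rw [mem_filter, mem_Icc]⟩
  obtain ⟨S4, hS4⟩ : ∃ S : Finset ℕ, S = (Icc 1 H).filter (fun h : ℕ =>
    (2 * a * (h : ℤ) + b).toNat ∈ S2 ∧ 1 ≤ 2 * a * (h : ℤ) + b) := ⟨_, rfl⟩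
  have hS4c : (S4.card : ℝ) ≤ ε / 4 * H := by
    have h1 : S4.card ≤ S2.card := by
      refine Finset.card_le_card_of_injOn (fun h : ℕ => (2 * a * (h : ℤ) + b).toNat) ?_ ?_
      · intro h hh
        rw [hS4, Finset.mem_coe, mem_filter] at hh
        exact hh.2.1
      · intro x hx y hy hxy
        rw [hS4, Finset.mem_coe, mem_filter] at hx hy
        have hx1 := hx.2.2
        have hy1 := hy.2.2
        have h2 : 2 * a * (x : ℤ) + b = 2 * a * (y : ℤ) + b := by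
          have h3 : (2 * a * (x : ℤ) + b).toNat = (2 * a * (y : ℤ) + b).toNat := hxy
          rw [← Int.toNat_of_nonneg (show 0 ≤ 2 * a * (x : ℤ) + b by omega), h3,
            Int.toNat_of_nonneg (show 0 ≤ 2 * a * (y : ℤ) + b by omega)]
        have h4 : 2 * a * (x : ℤ) = 2 * a * (y : ℤ) := by linarith
        have h5 : (x : ℤ) = y := mul_left_cancel₀ (show 2 * a ≠ 0 by omega) h4
        exact_mod_cast h5
    have h2 : (S4.card : ℝ) ≤ S2.card := by exact_mod_cast h1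
    refine h2.trans (hS2c.trans ?_)
    calc ε / (4 * (2 * (a : ℝ) + 1)) * B ≤ ε / (4 * (2 * (a : ℝ) + 1)) * ((2 * (a : ℝ) + 1) * H) :=
          mul_le_mul_of_nonneg_left hBr (by positivity)
      _ = ε / 4 * H := by
          have : (2 * (a : ℝ) + 1) ≠ 0 := by positivity
          field_simp
  have hS3c : ((Icc 1 b.natAbs).card : ℝ) ≤ ε / 4 * H := by
    rw [Nat.card_Icc, Nat.add_sub_cancel, natAbs_cast]
    rw [div_le_iff₀ hε] at g6
    linarith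
  have hcard : ∀ S : Finset ℕ, (∀ h ∈ S, h ∈ S1 ∨ h ∈ S4 ∨ h ∈ Icc 1 b.natAbs) →
      (S.card : ℝ) ≤ ε * H := by
    intro S hS
    have h1 : S ⊆ S1 ∪ (S4 ∪ Icc 1 b.natAbs) := by
      intro h hh
      rw [mem_union, mem_union]
      exact hS h hh
    have h2 := (Finset.card_le_card h1).trans ((Finset.card_union_le _ _).trans
      (Nat.add_le_add_left (Finset.card_union_le _ _) _))
    have h3 : (S.card : ℝ) ≤ S1.card + (S4.card + (Icc 1 b.natAbs).card) := by exact_mod_cast h2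
    have h4 : 0 ≤ ε * H := by positivity
    linarith
  refine hcard _ fun h hh => ?_
  rw [mem_filter, mem_Icc] at hh
  obtain ⟨⟨hh1, hhH⟩, hA, hno⟩ := hh
  by_contra hcon
  rw [not_or, not_or] at hcon
  obtain ⟨n1, n2, n3⟩ := hcon
  apply hno
  have p1 : κ1 ≤ Sqg a b 1 c h z ∧
        ∀ M : ℕ, M ≤ (K + c.natAbs) * H → |(cntg a b 1 c h M : ℝ) - Sqg a b 1 c h z *
          ∑ m ∈ (Icc 1 M).filter (fun m : ℕ => 2 ≤ Vg a b 1 c h m),
            1 / Real.log ((Vg a b 1 c h m : ℤ) : ℝ)| ≤ δ / 2 * (H / Real.log H) := by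
    by_contra hc1
    exact n1 ((hS1 h).2 ⟨⟨hh1, hhH⟩, hc1⟩)
  have hah : (h : ℤ) ≤ a * h := by
    have : (0 : ℤ) ≤ h := Int.natCast_nonneg h
    nlinarith
  have hbn : -(b.natAbs : ℤ) ≤ b ∧ b ≤ (b.natAbs : ℤ) := by omega
  have hpos : 1 ≤ 2 * a * (h : ℤ) + b := by
    by_contra hc1
    apply n3
    rw [mem_Icc]
    refine ⟨hh1, ?_⟩
    have e1 : 2 * a * (h : ℤ) = 2 * (a * h) := by ring
    rw [e1] at hc1
    have : (h : ℤ) ≤ b.natAbs := by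
      have : (0 : ℤ) ≤ h := Int.natCast_nonneg h
      omega
    exact_mod_cast this
  obtain ⟨n, hn⟩ : ∃ n : ℕ, (n : ℤ) = 2 * a * (h : ℤ) + b :=
    ⟨(2 * a * (h : ℤ) + b).toNat, Int.toNat_of_nonneg (by omega)⟩
  have hnS : n ∉ S2 := by
    intro hnS
    apply n2
    rw [hS4, mem_filter, mem_Icc]
    refine ⟨⟨hh1, hhH⟩, ?_, hpos⟩
    rw [← hn, Int.toNat_natCast]
    exact hnS
  have hnB : n ≤ B := by
    have e1 : a * (h : ℤ) ≤ a * H := by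
      have : (h : ℤ) ≤ H := by exact_mod_cast hhH
      exact mul_le_mul_of_nonneg_left this (by omega)
    have e2 : (n : ℤ) ≤ (B : ℤ) := by
      rw [hn, hB]
      push_cast
      rw [ha']
      have e3 : 2 * a * (h : ℤ) = 2 * (a * h) := by ring
      have e4 : 2 * a * (H : ℤ) = 2 * (a * H) := by ring
      rw [e3, e4]
      have := le_abs_self b
      linarith
    exact_mod_cast e2
  have hA2 : Admissible a n c := by
    rw [hn]
    exact adm a b c h hA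
  have p2 : ∃ K' : ℝ, IsC a n c K' ∧ κ ≤ K' ∧ K' ≤ K0 ∧
      |2 * K' - Sg a n c z| ≤ δ / (2 * ((K : ℝ) + 1)) := by
    by_contra hc2
    exact hnS ((hS2 n).2 ⟨⟨by omega, hnB⟩, hA2, hc2⟩)
  obtain ⟨C, c1, c2, c3, c4⟩ := p2
  rw [hn] at c1 c4
  refine ⟨C, (isC_iff a b c h C).2 c1, c2, fun M hM => ?_⟩
  have q1 := p1.2 M (hM.trans (Nat.mul_le_mul_right _ (Nat.le_add_right _ _)))
  rw [Sqg_eq] at q1
  obtain ⟨q2, q3⟩ := sum_le (a := a) (b := b) (c := c) ha (h := h) (H := H) (M := M) (l := l)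
    (by omega) hl hl0
  rw [← hl] at q1 ⊢
  obtain ⟨S, hS⟩ : ∃ S, S = ∑ m ∈ (Icc 1 M).filter (fun m : ℕ => 2 ≤ Vg a b 1 c h m),
      1 / Real.log ((Vg a b 1 c h m : ℤ) : ℝ) := ⟨_, rfl⟩
  rw [← hS] at q1 q2 q3 ⊢
  obtain ⟨G, hG⟩ : ∃ G, G = Sg a (2 * a * (h : ℤ) + b) c z := ⟨_, rfl⟩
  rw [← hG] at q1 c4
  have hMr : (M : ℝ) ≤ K * H := by exact_mod_cast hM
  have q4 : S ≤ ((K : ℝ) + 1) * (H / l) := by
    have e1 : (M : ℝ) / l ≤ K * H / l := div_le_div_of_nonneg_right hMr hl0.le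
    have e2 : (K : ℝ) * H / l = K * (H / l) := by ring
    linarith
  have q5 : |2 * C - G| * S ≤ δ / 2 * (H / l) := by
    calc |2 * C - G| * S ≤ δ / (2 * ((K : ℝ) + 1)) * (((K : ℝ) + 1) * (H / l)) :=
          mul_le_mul c4 q4 q2 (by positivity)
      _ = δ / 2 * (H / l) := by
          have : ((K : ℝ) + 1) ≠ 0 := by positivity
          field_simp
  have e : (cntg a b 1 c h M : ℝ) - 2 * C * S =
      ((cntg a b 1 c h M : ℝ) - G * S) + (-(2 * C - G)) * S := by ring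
  rw [e]
  refine (abs_add_le _ _).trans ?_
  rw [abs_mul, abs_neg, abs_of_nonneg q2]
  linarith

end

end Pool.Agent.N222.QV
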